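import Mathlib
import Pool.Agent.V8H60.OSIr

/-!
# Q1: with constant failure probability the relative error bound `1 + O(ε)` fails

The definitions `frob`, `rsvd`, `bestErr`, `IsOSI` are those of `Pool.Agent.H321R2.OSI.Defs`.
For every dimension `r ≥ 1` and every failure probability `δ > 0` we give a matrix `A` and ONE
random matrix which is an oblivious subspace injection of dimension `r`, failure probability `δ`
and injectivity `1` (so `1 - ε` for all `ε ≥ 0` at once), while the error of the randomized SVD is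
larger than `(1 + c)` times the optimal error for every outcome, `c > 0`.

The test matrix is `0` with probability `1 / K`, `K ≥ 2 / δ`, and otherwise has rows `± κ b_j`,
with independent signs and unit vectors `b_j` of small coherence in a space of dimension much
smaller than their number; `κ² = K / (K - 1) > 1` gives the isotropy and compensates the small loss
of norm in the compression of the Gram matrix to a fixed subspace. The vectors `b_j` of the
tail all have inner product `s` with the vector of one leading direction.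
-/

namespace Pool.Agent.Results.MP_082b65_an.ConstantFailure

open MeasureTheory Matrix Finset Pool.Agent.H321R2.OSI Pool.Agent.V8H60.OSIr

/-- The bound of Q1 for oblivious subspace injections with dimension `r` and failure probability
`δ`, on the range `0 < ε ≤ ε₀`, `ε < 1`, with constant `C` and success probability `p₀`: for every
real matrix `A` (`n × d`) and every random `d × k` matrix `S` which is an oblivious subspace
injection with dimension `r`, injectivity `1 - ε` and failure probability `δ`, there is an event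
of probability at least `p₀` on which `‖A - Ã‖_F ≤ (1 + C ε) ‖A - A_r‖_F`. -/
def RelativeBound (r : ℕ) (δ ε₀ C p₀ : ℝ) : Prop :=
  ∀ ε : ℝ, 0 < ε → ε ≤ ε₀ → ε < 1 →
    ∀ (n d k : ℕ) (A : Matrix (Fin n) (Fin d) ℝ)
      (W : Type) (_ : MeasurableSpace W) (P : Measure W) (_ : IsProbabilityMeasure P)
      (S : W → Matrix (Fin d) (Fin k) ℝ), IsOSI P S r (1 - ε) δ →
        ∃ D : Set W, MeasurableSet D ∧ p₀ ≤ P.real D ∧
          ∀ w ∈ D, frob (A - rsvd A (S w)) ≤ (1 + C * ε) * bestErr A r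

/-- One oblivious subspace injection for all `ε`, with constant relative excess error for every
outcome. -/
theorem example_osi (r : ℕ) (hr : 1 ≤ r) (δ : ℝ) (hδ : 0 < δ) :
    ∃ c : ℝ, 0 < c ∧ ∃ (d k : ℕ) (A : Matrix (Fin d) (Fin d) ℝ)
      (W : Type) (_ : MeasurableSpace W) (P : Measure W) (_ : IsProbabilityMeasure P)
      (S : W → Matrix (Fin d) (Fin k) ℝ), (∀ ε : ℝ, 0 ≤ ε → IsOSI P S r (1 - ε) δ) ∧
        0 ≤ bestErr A r ∧ ∀ w, (1 + c) * bestErr A r < frob (A - rsvd A (S w)) := by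
  obtain ⟨q, rfl⟩ : ∃ q, r = q + 1 := ⟨r - 1, by omega⟩
  obtain ⟨K₀, hK₀⟩ := exists_nat_ge (2 / δ)
  set K := K₀ + 2 with hKdef
  have hK : 2 ≤ K := by omega
  have : NeZero K := ⟨by omega⟩
  have hKr : (2 : ℝ) ≤ K := by exact_mod_cast hK
  have hδK : 2 ≤ δ * K := by
    have h1 : 2 / δ ≤ (K : ℝ) := hK₀.trans (by rw [hKdef]; push_cast; linarith)
    rw [div_le_iff₀ hδ] at h1
    linarith [mul_comm (K : ℝ) δ]
  set R : ℝ := ((q + 1 : ℕ) : ℝ) with hR
  have hR1 : 1 ≤ R := by rw [hR]; exact_mod_cast hr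
  set s : ℝ := 1 / (4 * R * (K : ℝ) ^ 2) with hs
  have hden : 1 ≤ 4 * R * (K : ℝ) ^ 2 := by nlinarith [sq_nonneg ((K : ℝ) - 2)]
  have hs0 : 0 < s := by positivity
  have hs1 : s ≤ 1 := by
    rw [hs, div_le_one (by linarith)]
    exact hden
  have hμK : 2 * (2 * s) ^ 2 * R ^ 2 * (K : ℝ) ^ 3 ≤ 1 := by
    have h1 : 2 * (2 * s) ^ 2 * R ^ 2 * (K : ℝ) ^ 3 = 1 / (2 * K) := by
      rw [hs]
      have : (K : ℝ) ≠ 0 := by linarith
      have : R ≠ 0 := by linarith
      field_simp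
      ring
    rw [h1, div_le_one (by linarith)]
    linarith
  obtain ⟨p₀, hp₀⟩ := exists_nat_ge (4 * ((q : ℝ) + 3) / s ^ 2)
  obtain ⟨p, hpp₀, hp⟩ := Nat.exists_infinite_primes p₀
  have : Fact p.Prime := ⟨hp⟩
  have hpr : 4 * ((q : ℝ) + 3) / s ^ 2 ≤ p := hp₀.trans (by exact_mod_cast hpp₀)
  have hq0 : (0 : ℝ) ≤ q := Nat.cast_nonneg q
  have hps : (q : ℝ) + 3 ≤ p * s ^ 2 / 4 := by
    rw [div_le_iff₀ (by positivity)] at hpr
    linarith
  have hs2 : s ^ 2 ≤ s := by nlinarith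
  have hpbig : 1 ≤ s * ((p : ℝ) - 1) := by
    have h1 : (12 : ℝ) ≤ p * s ^ 2 := by linarith
    have h2 : p * s ^ 2 ≤ p * s := mul_le_mul_of_nonneg_left hs2 (Nat.cast_nonneg p)
    nlinarith
  have hp1 : (0 : ℝ) < (p : ℝ) - 1 := by
    by_contra h
    push Not at h
    nlinarith
  obtain ⟨w, hw1, hw2, hw3⟩ := exists_lowcoh p
  have hw2' : ∀ j l, j ≠ l → |∑ i, w j i * w l i| ≤ s := by
    intro j l h
    refine (hw2 j l h).trans ?_
    rw [div_le_iff₀ hp1]
    exact hpbig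
  have hp1' : (1 : ℝ) ≤ p := by linarith
  have hN : 0 < p ^ 3 := by have := hp.pos; positivity
  have hNr : (0 : ℝ) < ((p ^ 3 : ℕ) : ℝ) := by exact_mod_cast hN
  have hkN : ((q : ℝ) + ((p ^ 2 : ℕ) : ℝ) + 1) ≤ ((p ^ 3 : ℕ) : ℝ) * s ^ 2 / 4 := by
    push_cast
    have h1 : (p : ℝ) ^ 3 * s ^ 2 / 4 = (p : ℝ) ^ 2 * (p * s ^ 2 / 4) := by ring
    rw [h1]
    have h2 : (1 : ℝ) ≤ (p : ℝ) ^ 2 := one_le_pow₀ hp1'
    have h3 : (p : ℝ) ^ 2 * ((q : ℝ) + 3) ≤ (p : ℝ) ^ 2 * (p * s ^ 2 / 4) :=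
      mul_le_mul_of_nonneg_left hps (by positivity)
    nlinarith
  have hbest := bestErr_le_r q (p ^ 3)
  have hbest0 : 0 ≤ bestErr (diagonal (av q (p ^ 3))) (q + 1) := by
    unfold bestErr
    apply Real.sInf_nonneg
    rintro e ⟨B, _, rfl⟩
    exact Real.sqrt_nonneg _
  refine ⟨s ^ 2 / 16, by positivity, q + (p ^ 3 + 1), q + (p ^ 2 + 1), diagonal (av q (p ^ 3)),
    Smp K (q + (p ^ 3 + 1)), inferInstance, unif _, inferInstance, Smat K (brw q s w), ?_,
    hbest0, ?_⟩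
  · intro ε hε
    exact isOSI_Smat_r hK (brw q s w) (gram_brw_self s (by nlinarith) w hw1) (2 * s)
      (gram_brw_off s hs0 hs1 w hw2') hμK δ hδK ε hε
  · intro ω
    have h1 := err_lower_r (q := q) s hs1 hs0 w hw3 hN hkN ω
    set E := frob (diagonal (av q (p ^ 3)) - rsvd (diagonal (av q (p ^ 3)))
      (Smat K (brw q s w) ω)) with hE
    have hE0 : 0 ≤ E := Real.sqrt_nonneg _
    have hsq : Real.sqrt ((p ^ 3 : ℕ) : ℝ) ^ 2 = ((p ^ 3 : ℕ) : ℝ) := Real.sq_sqrt hNr.le
    have h2 : ((1 + s ^ 2 / 16) * bestErr (diagonal (av q (p ^ 3))) (q + 1)) ^ 2 < E ^ 2 := by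
      calc ((1 + s ^ 2 / 16) * bestErr (diagonal (av q (p ^ 3))) (q + 1)) ^ 2
          ≤ ((1 + s ^ 2 / 16) * Real.sqrt ((p ^ 3 : ℕ) : ℝ)) ^ 2 := by
            refine pow_le_pow_left₀ (mul_nonneg (by positivity) hbest0) ?_ 2
            exact mul_le_mul_of_nonneg_left hbest (by positivity)
        _ = (1 + s ^ 2 / 16) ^ 2 * ((p ^ 3 : ℕ) : ℝ) := by rw [mul_pow, hsq]
        _ < (1 + s ^ 2 / 4) * ((p ^ 3 : ℕ) : ℝ) := by
            refine mul_lt_mul_of_pos_right ?_ hNr
            have h3 : s ^ 2 ≤ 1 := by nlinarith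
            have h4 : 0 < s ^ 2 := by positivity
            nlinarith
        _ = ((p ^ 3 : ℕ) : ℝ) * (1 + s ^ 2 / 4) := by ring
        _ ≤ E ^ 2 := h1
    exact lt_of_pow_lt_pow_left₀ 2 hE0 h2

/-- **Negative answer to Q1**, for every dimension `r ≥ 1`, every failure probability `δ > 0` (in
particular `δ = 0.01`) and every range `0 < ε ≤ ε₀`: no constants `C` and `p₀ > 0` exist. Moreover
one random matrix is an oblivious subspace injection for all `ε ≥ 0` at once and has an error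
larger than `(1 + c)` times the optimal error for every outcome. -/
theorem result :
    (∀ r : ℕ, 1 ≤ r → ∀ δ : ℝ, 0 < δ → ∀ ε₀ : ℝ, 0 < ε₀ → ∀ C p₀ : ℝ, 0 < p₀ →
      ¬ RelativeBound r δ ε₀ C p₀) ∧
    ∀ r : ℕ, 1 ≤ r → ∀ δ : ℝ, 0 < δ →
      ∃ c : ℝ, 0 < c ∧ ∃ (d k : ℕ) (A : Matrix (Fin d) (Fin d) ℝ)
        (W : Type) (_ : MeasurableSpace W) (P : Measure W) (_ : IsProbabilityMeasure P)
        (S : W → Matrix (Fin d) (Fin k) ℝ), (∀ ε : ℝ, 0 ≤ ε → IsOSI P S r (1 - ε) δ) ∧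
          0 ≤ bestErr A r ∧ ∀ w, (1 + c) * bestErr A r < frob (A - rsvd A (S w)) := by
  refine ⟨?_, example_osi⟩
  intro r hr δ hδ ε₀ hε₀ C p₀ hp₀ hB
  obtain ⟨c, hc, d, k, A, W, mW, P, hP, S, hS, hb, hE⟩ := example_osi r hr δ hδ
  set ε : ℝ := min (min ε₀ (1 / 2)) (c / (|C| + 1)) with hε
  have hC : 0 < |C| + 1 := by positivity
  have hε0 : 0 < ε := lt_min (lt_min hε₀ (by norm_num)) (by positivity)
  have hε1 : ε ≤ ε₀ := (min_le_left _ _).trans (min_le_left _ _)
  have hε2 : ε < 1 := lt_of_le_of_lt ((min_le_left _ _).trans (min_le_right _ _)) (by norm_num)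
  have hCε : C * ε ≤ c := by
    have h1 : ε * (|C| + 1) ≤ c := by
      rw [← le_div_iff₀ hC]
      exact min_le_right _ _
    have h2 : C * ε ≤ |C| * ε := mul_le_mul_of_nonneg_right (le_abs_self C) hε0.le
    nlinarith
  obtain ⟨D, -, hD1, hD2⟩ := hB ε hε0 hε1 hε2 d d k A W mW P hP S (hS ε hε0.le)
  have hne : D.Nonempty := by
    by_contra h
    rw [Set.not_nonempty_iff_eq_empty] at h
    rw [h] at hD1
    simp at hD1
    linarith
  obtain ⟨w, hw⟩ := hne
  have h1 := hD2 w hw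
  have h2 := hE w
  have h3 : (1 + C * ε) * bestErr A r ≤ (1 + c) * bestErr A r :=
    mul_le_mul_of_nonneg_right (by linarith) hb
  linarith

end Pool.Agent.Results.MP_082b65_an.ConstantFailure
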